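import Mathlib

set_option autoImplicit false

namespace Pool.Agent.Results.MP_a9a483_co.DoubleSplit

open SimpleGraph

/-- A graph is Berge if neither it nor its complement contains an odd hole, that is, an induced cycle on an
odd number (at least five) of vertices. -/
def IsBerge {V : Type} (G : SimpleGraph V) : Prop :=
  ∀ k : ℕ, Odd k → 5 ≤ k → IsEmpty (cycleGraph k ↪g G) ∧ IsEmpty (cycleGraph k ↪g Gᶜ)

/-- Two distinct vertices form an even pair if every chordless path between them has even length. -/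
def EvenPair {V : Type} (G : SimpleGraph V) (x y : V) : Prop :=
  x ≠ y ∧ ∀ n : ℕ, (∃ f : pathGraph (n + 1) ↪g G, f 0 = x ∧ f (Fin.last n) = y) → Even n

/-- No two vertices form an even pair. -/
def EvenPairFree {V : Type} (G : SimpleGraph V) : Prop := ∀ x y : V, ¬ EvenPair G x y

/-- `G` is isomorphic to the line graph of a bipartite graph. -/
def IsLineOfBipartite {V : Type} (G : SimpleGraph V) : Prop :=
  ∃ (W : Type) (H : SimpleGraph W), H.IsBipartite ∧ Nonempty (G ≃g H.lineGraph)

/-- `f` is a chordless path of length `n` inside `U` with one end in `A`, the other end in `B` and no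
interior vertex in `A ∪ B`. -/
def LinkPath {V : Type} (G : SimpleGraph V) (U A B : Set V) (n : ℕ) (f : pathGraph (n + 1) ↪g G) : Prop :=
  (∀ i, f i ∈ U) ∧ f 0 ∈ A ∧ f (Fin.last n) ∈ B ∧ ∀ i, i ≠ 0 → i ≠ Fin.last n → f i ∉ A ∪ B

/-- The conditions on one side of a 2-join. -/
def Side {V : Type} (G : SimpleGraph V) (U A B : Set V) : Prop :=
  A ⊆ U ∧ B ⊆ U ∧ Disjoint A B ∧ A.Nonempty ∧ B.Nonempty ∧ (∃ n f, LinkPath G U A B n f) ∧
    ¬ ∃ n f, LinkPath G U A B n f ∧ Nonempty (G.induce U ≃g pathGraph (n + 1))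

/-- `G` has a 2-join. -/
def HasTwoJoin {V : Type} (G : SimpleGraph V) : Prop :=
  ∃ V₁ V₂ A₁ B₁ A₂ B₂ : Set V, V₁ ∪ V₂ = Set.univ ∧ Disjoint V₁ V₂ ∧ Side G V₁ A₁ B₁ ∧ Side G V₂ A₂ B₂ ∧
    ∀ x ∈ V₁, ∀ y ∈ V₂, G.Adj x y ↔ (x ∈ A₁ ∧ y ∈ A₂) ∨ (x ∈ B₁ ∧ y ∈ B₂)

/-- Neighbourhoods as bit masks. -/
def nb (u : Fin 16) : ℕ :=
  (![3856, 42272, 49984, 27008, 61441, 23042, 15364, 38408, 60943, 56741, 48067, 30569, 61168, 56666,
    47932, 30614] : Fin 16 → ℕ) u

/-- Adjacency. -/
def A (u v : Fin 16) : Bool := (nb u).testBit v.val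

theorem A_symm : ∀ u v : Fin 16, A u v = true → A v u = true := by decide +kernel

theorem A_irrefl : ∀ u : Fin 16, ¬ A u u = true := by decide +kernel

/-- The double split graph of a Hadamard matrix of order four. -/
def gr : SimpleGraph (Fin 16) where
  Adj u v := A u v = true
  symm := ⟨A_symm⟩
  loopless := ⟨A_irrefl⟩

/-- The map showing that the graph is self-complementary. -/
def phi (u : Fin 16) : Fin 16 :=
  (![12, 13, 14, 15, 8, 9, 10, 11, 0, 1, 2, 3, 4, 5, 6, 7] : Fin 16 → Fin 16) u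

theorem phi_phi4 : ∀ u : Fin 16, phi (phi (phi (phi u))) = u := by decide +kernel

theorem phi_inj : Function.Injective phi := by
  intro u v h
  rw [← phi_phi4 u, ← phi_phi4 v, h]

theorem phi_adj : ∀ u v : Fin 16, A (phi u) (phi v) = true ↔ (u ≠ v ∧ ¬ A u v = true) := by decide +kernel

/-- The graph is self-complementary. -/
noncomputable def iso : grᶜ ≃g gr where
  toEquiv := Equiv.ofBijective phi (Finite.injective_iff_bijective.1 phi_inj)
  map_rel_iff' := by
    intro u v
    rw [SimpleGraph.compl_adj]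
    exact phi_adj u v

theorem no5' : ∀ a b : Fin 16, A a b = true → ∀ c, (A b c && !A a c && a != c) = true →
    ∀ d, (A c d && !A a d && !A b d && a != d && b != d) = true →
    ∀ e, (A d e && A e a && !A b e && !A c e && b != e && c != e) = false := by
  decide +kernel

theorem no7' : ∀ a b : Fin 16, A a b = true → ∀ c, (A b c && !A a c && a != c) = true →
    ∀ d, (A c d && !A a d && !A b d && a != d && b != d) = true →
    ∀ e, (A d e && !A a e && !A b e && !A c e && a != e && b != e && c != e) = true →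
    ∀ f, (A e f && !A a f && !A b f && !A c f && !A d f && a != f && b != f && c != f && d != f) = true →
    ∀ g, (A f g && !A b g && !A c g && !A d g && !A e g && b != g && c != g && d != g && e != g && a != g) =
      false := by
  decide +kernel

theorem no5 (a b : Fin 16) (h1 : A a b = true) (c : Fin 16) (h2 : A b c = true) (h3 : A a c = false)
    (h4 : a ≠ c) (d : Fin 16) (h5 : A c d = true) (h6 : A a d = false) (h7 : A b d = false) (h8 : a ≠ d)
    (h9 : b ≠ d) (e : Fin 16) (h10 : A d e = true) (h11 : A e a = true) (h12 : A b e = false)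
    (h13 : A c e = false) (h14 : b ≠ e) (h15 : c ≠ e) : False := by
  have := no5' a b h1 c (by simp [h2, h3, h4]) d (by simp [h5, h6, h7, h8, h9]) e
  simp [h10, h11, h12, h13, h14, h15] at this

theorem no7 (a b : Fin 16) (h1 : A a b = true) (c : Fin 16) (h2 : A b c = true) (h3 : A a c = false)
    (h4 : a ≠ c) (d : Fin 16) (h5 : A c d = true) (h6 : A a d = false) (h7 : A b d = false) (h8 : a ≠ d)
    (h9 : b ≠ d) (e : Fin 16) (h10 : A d e = true) (h11 : A a e = false) (h12 : A b e = false)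
    (h13 : A c e = false) (h14 : a ≠ e) (h15 : b ≠ e) (h16 : c ≠ e)
    (f : Fin 16) (k1 : A e f = true) (k2 : A a f = false) (k3 : A b f = false) (k4 : A c f = false)
    (k5 : A d f = false) (k6 : a ≠ f) (k7 : b ≠ f) (k8 : c ≠ f) (k9 : d ≠ f)
    (g : Fin 16) (l1 : A f g = true) (l2 : A b g = false) (l3 : A c g = false) (l4 : A d g = false)
    (l5 : A e g = false) (l6 : b ≠ g) (l7 : c ≠ g) (l8 : d ≠ g) (l9 : e ≠ g) (l10 : a ≠ g) : False := by
  have := no7' a b h1 c (by simp [h2, h3, h4]) d (by simp [h5, h6, h7, h8, h9]) e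
    (by simp [h10, h11, h12, h13, h14, h15, h16]) f (by simp [k1, k2, k3, k4, k5, k6, k7, k8, k9]) g
  simp [l1, l2, l3, l4, l5, l6, l7, l8, l9, l10] at this

theorem adjOf {k : ℕ} (f : cycleGraph k ↪g gr) (i j : ℕ) (hi : i < k) (hj : j < k) (hij : j = i + 1) :
    A (f ⟨i, hi⟩) (f ⟨j, hj⟩) = true := by
  have h : gr.Adj (f ⟨i, hi⟩) (f ⟨j, hj⟩) := by
    rw [f.map_adj_iff, cycleGraph_adj']
    right
    rw [Fin.sub_val_of_le (by subst hij; exact Fin.mk_le_mk.2 (Nat.le_succ i))]
    subst hij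
    simp
  exact h

theorem nadjOf {k : ℕ} (f : cycleGraph k ↪g gr) (i j : ℕ) (hi : i < k) (hj : j < k) (hij : i + 1 < j)
    (hk : j + 1 < k + i) : A (f ⟨i, hi⟩) (f ⟨j, hj⟩) = false := by
  by_contra hc
  have h : gr.Adj (f ⟨i, hi⟩) (f ⟨j, hj⟩) := by
    show A (f ⟨i, hi⟩) (f ⟨j, hj⟩) = true
    simpa using hc
  rw [f.map_adj_iff, cycleGraph_adj'] at h
  rcases h with h | h
  · rw [Fin.coe_sub_iff_lt.2 (Fin.mk_lt_mk.2 (by omega))] at h
    simp only at h
    omega
  · rw [Fin.sub_val_of_le (Fin.mk_le_mk.2 (by omega))] at h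
    simp only at h
    omega

theorem neOf {k : ℕ} (f : cycleGraph k ↪g gr) (i j : ℕ) (hi : i < k) (hj : j < k) (hij : i ≠ j) :
    f ⟨i, hi⟩ ≠ f ⟨j, hj⟩ := by
  intro h
  have := f.injective h
  exact hij (Fin.mk.inj this)

theorem wrap {k : ℕ} (f : cycleGraph k ↪g gr) (hk : 5 ≤ k) :
    A (f ⟨k - 1, by omega⟩) (f ⟨0, by omega⟩) = true := by
  have h : gr.Adj (f ⟨k - 1, by omega⟩) (f ⟨0, by omega⟩) := by
    rw [f.map_adj_iff, cycleGraph_adj']
    right
    rw [Fin.coe_sub_iff_lt.2 (Fin.mk_lt_mk.2 (by omega))]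
    simp only
    omega
  exact h

theorem noOddHole (k : ℕ) (hodd : Odd k) (hk : 5 ≤ k) : IsEmpty (cycleGraph k ↪g gr) := by
  refine ⟨fun f => ?_⟩
  by_cases h5 : k = 5
  · subst h5
    exact no5 (f ⟨0, by omega⟩) (f ⟨1, by omega⟩) (adjOf f _ _ _ _ rfl)
      (f ⟨2, by omega⟩) (adjOf f _ _ _ _ rfl) (nadjOf f _ _ _ _ (by omega) (by omega)) (neOf f _ _ _ _ (by omega))
      (f ⟨3, by omega⟩) (adjOf f _ _ _ _ rfl) (nadjOf f _ _ _ _ (by omega) (by omega))
      (nadjOf f _ _ _ _ (by omega) (by omega)) (neOf f _ _ _ _ (by omega)) (neOf f _ _ _ _ (by omega))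
      (f ⟨4, by omega⟩) (adjOf f _ _ _ _ rfl) (wrap f le_rfl) (nadjOf f _ _ _ _ (by omega) (by omega))
      (nadjOf f _ _ _ _ (by omega) (by omega)) (neOf f _ _ _ _ (by omega)) (neOf f _ _ _ _ (by omega))
  · have h7 : 7 ≤ k := by
      obtain ⟨r, hr⟩ := hodd
      omega
    exact no7 (f ⟨0, by omega⟩) (f ⟨1, by omega⟩) (adjOf f _ _ _ _ rfl)
      (f ⟨2, by omega⟩) (adjOf f _ _ _ _ rfl) (nadjOf f _ _ _ _ (by omega) (by omega)) (neOf f _ _ _ _ (by omega))
      (f ⟨3, by omega⟩) (adjOf f _ _ _ _ rfl) (nadjOf f _ _ _ _ (by omega) (by omega))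
      (nadjOf f _ _ _ _ (by omega) (by omega)) (neOf f _ _ _ _ (by omega)) (neOf f _ _ _ _ (by omega))
      (f ⟨4, by omega⟩) (adjOf f _ _ _ _ rfl) (nadjOf f _ _ _ _ (by omega) (by omega))
      (nadjOf f _ _ _ _ (by omega) (by omega)) (nadjOf f _ _ _ _ (by omega) (by omega))
      (neOf f _ _ _ _ (by omega)) (neOf f _ _ _ _ (by omega)) (neOf f _ _ _ _ (by omega))
      (f ⟨5, by omega⟩) (adjOf f _ _ _ _ rfl) (nadjOf f _ _ _ _ (by omega) (by omega))
      (nadjOf f _ _ _ _ (by omega) (by omega)) (nadjOf f _ _ _ _ (by omega) (by omega))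
      (nadjOf f _ _ _ _ (by omega) (by omega))
      (neOf f _ _ _ _ (by omega)) (neOf f _ _ _ _ (by omega)) (neOf f _ _ _ _ (by omega))
      (neOf f _ _ _ _ (by omega))
      (f ⟨6, by omega⟩) (adjOf f _ _ _ _ rfl) (nadjOf f _ _ _ _ (by omega) (by omega))
      (nadjOf f _ _ _ _ (by omega) (by omega)) (nadjOf f _ _ _ _ (by omega) (by omega))
      (nadjOf f _ _ _ _ (by omega) (by omega))
      (neOf f _ _ _ _ (by omega)) (neOf f _ _ _ _ (by omega)) (neOf f _ _ _ _ (by omega))
      (neOf f _ _ _ _ (by omega)) (neOf f _ _ _ _ (by omega))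

theorem berge : IsBerge gr := by
  intro k hodd hk
  refine ⟨noOddHole k hodd hk, ⟨fun f => ?_⟩⟩
  exact (noOddHole k hodd hk).false (f.trans iso.toEmbedding)

theorem p4s : ∀ x y : Fin 16, x ≠ y → A x y = false →
    ∃ u, A x u = true ∧ A u y = false ∧ u ≠ y ∧ ∃ v, A u v = true ∧ A v y = true ∧ A x v = false ∧ x ≠ v := by
  decide +kernel

theorem epf : EvenPairFree gr := by
  rintro x y ⟨hxy, h⟩
  by_cases hadj : A x y = true
  · have hf := h 1 ⟨⟨⟨![x, y], by
      intro a b hab
      fin_cases a <;> fin_cases b <;> simp_all⟩, by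
      intro a b
      rw [pathGraph_adj]
      fin_cases a <;> fin_cases b <;> simp [gr, hadj, A_symm x y hadj, A_irrefl]⟩, rfl, rfl⟩
    exact absurd hf (by decide)
  · have hadj' : A x y = false := by simpa using hadj
    obtain ⟨u, h1, h2, h3, v, h4, h5, h6, h7⟩ := p4s x y hxy hadj'
    have sf : ∀ a b : Fin 16, A a b = false → A b a = false := by
      intro a b hab
      by_contra hc
      have hc' : A b a = true := by simpa using hc
      rw [A_symm _ _ hc'] at hab
      exact absurd hab (by simp)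
    have s1 := A_symm _ _ h1
    have s4 := A_symm _ _ h4
    have s5 := A_symm _ _ h5
    have s2 := sf _ _ h2
    have s6 := sf _ _ h6
    have s0 := sf _ _ hadj'
    have d1 : x ≠ u := fun hc => A_irrefl x (by rw [← hc] at h1; exact h1)
    have d4 : u ≠ v := fun hc => A_irrefl u (by rw [← hc] at h4; exact h4)
    have d5 : v ≠ y := fun hc => A_irrefl v (by rw [← hc] at h5; exact h5)
    have hf := h 3 ⟨⟨⟨![x, u, v, y], by
      intro a b hab
      fin_cases a <;> fin_cases b <;> simp_all⟩, by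
      intro a b
      rw [pathGraph_adj]
      fin_cases a <;> fin_cases b <;> simp [gr, h1, h2, h4, h5, h6, s0, s1, s2, s4, s5, s6, hadj', A_irrefl]⟩,
      rfl, rfl⟩
    exact absurd hf (by decide)

theorem claw_free {V : Type} (G : SimpleGraph V) (h : IsLineOfBipartite G) (c x y z : V)
    (hx : G.Adj c x) (hy : G.Adj c y) (hz : G.Adj c z) (hxy : x ≠ y) (hyz : y ≠ z) (hxz : x ≠ z)
    (nxy : ¬ G.Adj x y) (nyz : ¬ G.Adj y z) (nxz : ¬ G.Adj x z) : False := by
  obtain ⟨W, H, -, ⟨φ⟩⟩ := h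
  have key : ∀ u v : V, u ≠ v → ¬ G.Adj u v → ∀ w : W, w ∈ (φ u).val → w ∈ (φ v).val → False := by
    intro u v huv hn w h1 h2
    apply hn
    rw [← φ.map_adj_iff, lineGraph_adj_iff_exists]
    exact ⟨fun hc => huv (φ.injective hc), w, h1, h2⟩
  have hcx := φ.map_adj_iff.2 hx
  have hcy := φ.map_adj_iff.2 hy
  have hcz := φ.map_adj_iff.2 hz
  rw [lineGraph_adj_iff_exists] at hcx hcy hcz
  obtain ⟨-, a, ha1, ha2⟩ := hcx
  obtain ⟨-, b, hb1, hb2⟩ := hcy
  obtain ⟨-, d, hd1, hd2⟩ := hcz
  have hab : a ≠ b := fun hc => key x y hxy nxy a ha2 (by rw [hc]; exact hb2)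
  have hbd : b ≠ d := fun hc => key y z hyz nyz b hb2 (by rw [hc]; exact hd2)
  have had : a ≠ d := fun hc => key x z hxz nxz a ha2 (by rw [hc]; exact hd2)
  have he : (φ c).val = s(a, b) := (Sym2.mem_and_mem_iff hab).1 ⟨ha1, hb1⟩
  rw [he, Sym2.mem_iff] at hd1
  rcases hd1 with h | h
  · exact had h.symm
  · exact hbd h.symm

theorem not_line : ¬ IsLineOfBipartite gr := by
  intro h
  exact claw_free gr h 8 0 1 2 (show A 8 0 = true by decide +kernel) (show A 8 1 = true by decide +kernel)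
    (show A 8 2 = true by decide +kernel) (by decide) (by decide) (by decide)
    (show ¬ A 0 1 = true by decide +kernel) (show ¬ A 1 2 = true by decide +kernel)
    (show ¬ A 0 2 = true by decide +kernel)

theorem not_line_compl : ¬ IsLineOfBipartite grᶜ := by
  rintro ⟨W, H, hH, ⟨φ⟩⟩
  exact not_line ⟨W, H, hH, ⟨iso.symm.trans φ⟩⟩

/-- Scan of the traces on the second side of the neighbourhoods of the members of the first side. -/
def scan (m M : ℕ) : List (Fin 16) → ℕ → ℕ → Bool
  | [], _, y => !(y == 0)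
  | p :: l, x, y =>
    if m.testBit p.val then
      (if Nat.land (nb p) M == 0 then scan m M l x y
      else if x == 0 then scan m M l (Nat.land (nb p) M) y
      else if Nat.land (nb p) M == x then scan m M l x y
      else if y == 0 then
        (if Nat.land (Nat.land (nb p) M) x == 0 then scan m M l x (Nat.land (nb p) M) else false)
      else if Nat.land (nb p) M == y then scan m M l x y else false)
    else scan m M l x y

theorem scan_true (m M α β : ℕ) (hα : α ≠ 0) (hβ : β ≠ 0) (hαβ : Nat.land α β = 0) (hβα : Nat.land β α = 0)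
    (hne : α ≠ β) : ∀ (l : List (Fin 16)) (x y : ℕ),
    (∀ p ∈ l, m.testBit p.val = true → Nat.land (nb p) M = 0 ∨ Nat.land (nb p) M = α ∨ Nat.land (nb p) M = β) →
    ((x = 0 ∧ y = 0) ∨ (x = α ∧ y = 0) ∨ (x = β ∧ y = 0) ∨ (x = α ∧ y = β) ∨ (x = β ∧ y = α)) →
    ((∃ p ∈ l, m.testBit p.val = true ∧ Nat.land (nb p) M = α) ∨ x = α ∨ y = α) →
    ((∃ p ∈ l, m.testBit p.val = true ∧ Nat.land (nb p) M = β) ∨ x = β ∨ y = β) →
    scan m M l x y = true := by
  intro l
  induction l with
  | nil =>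
    intro x y _ h2 h3 h4
    have h3' : x = α ∨ y = α := by simpa using h3
    have h4' : x = β ∨ y = β := by simpa using h4
    unfold scan
    have : y ≠ 0 := by
      clear hαβ hβα h3 h4
      omega
    simpa using this
  | cons p l ih =>
    intro x y h1 h2 h3 h4
    have h1' : ∀ p ∈ l, m.testBit p.val = true → Nat.land (nb p) M = 0 ∨ Nat.land (nb p) M = α ∨
        Nat.land (nb p) M = β := fun q hq => h1 q (List.mem_cons_of_mem _ hq)
    unfold scan
    by_cases hb : m.testBit p.val = true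
    · rw [if_pos hb]
      have hp := h1 p List.mem_cons_self hb
      have shift : ∀ (γ x' y' : ℕ), (Nat.land (nb p) M = γ → x' = γ ∨ y' = γ) → (x = γ ∨ y = γ → x' = γ ∨ y' = γ) →
          ((∃ q ∈ p :: l, m.testBit q.val = true ∧ Nat.land (nb q) M = γ) ∨ x = γ ∨ y = γ) →
          ((∃ q ∈ l, m.testBit q.val = true ∧ Nat.land (nb q) M = γ) ∨ x' = γ ∨ y' = γ) := by
        intro γ x' y' g1 g2 g3
        rcases g3 with ⟨q, hq, hq2, hq3⟩ | g3
        · rcases List.mem_cons.1 hq with rfl | hq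
          · exact Or.inr (g1 hq3)
          · exact Or.inl ⟨q, hq, hq2, hq3⟩
        · exact Or.inr (g2 g3)
      generalize Nat.land (nb p) M = s at hp shift
      rcases hp with hp | hp | hp
      · subst hp
        simp only [beq_self_eq_true, if_true]
        exact ih x y h1' h2 (shift α x y (fun h => absurd h.symm hα) id h3)
          (shift β x y (fun h => absurd h.symm hβ) id h4)
      · subst hp
        rw [if_neg (by simpa using hα)]
        rcases h2 with ⟨h, h'⟩ | ⟨h, h'⟩ | ⟨h, h'⟩ | ⟨h, h'⟩ | ⟨h, h'⟩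
        · subst h; subst h'
          rw [if_pos (by simp)]
          exact ih _ _ h1' (Or.inr (Or.inl ⟨rfl, rfl⟩)) (Or.inr (Or.inl rfl))
            (shift β _ _ (fun h => absurd h hne) (by rintro (h | h) <;> exact absurd h.symm hβ) h4)
        · subst h; subst h'
          rw [if_neg (by simpa using hα), if_pos (by simp)]
          exact ih _ _ h1' (Or.inr (Or.inl ⟨rfl, rfl⟩)) (Or.inr (Or.inl rfl))
            (shift β _ _ (fun h => absurd h hne) id h4)
        · subst h; subst h'
          rw [if_neg (by simpa using hβ), if_neg (by simpa using hne), if_pos (by simp), if_pos (by simpa using hαβ)]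
          exact ih _ _ h1' (Or.inr (Or.inr (Or.inr (Or.inr ⟨rfl, rfl⟩)))) (Or.inr (Or.inr rfl)) (Or.inr (Or.inl rfl))
        · subst h; subst h'
          rw [if_neg (by simpa using hα), if_pos (by simp)]
          exact ih _ _ h1' (Or.inr (Or.inr (Or.inr (Or.inl ⟨rfl, rfl⟩)))) (Or.inr (Or.inl rfl)) (Or.inr (Or.inr rfl))
        · subst h; subst h'
          rw [if_neg (by simpa using hβ), if_neg (by simpa using hne), if_neg (by simpa using hα), if_pos (by simp)]
          exact ih _ _ h1' (Or.inr (Or.inr (Or.inr (Or.inr ⟨rfl, rfl⟩)))) (Or.inr (Or.inr rfl)) (Or.inr (Or.inl rfl))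
      · subst hp
        rw [if_neg (by simpa using hβ)]
        rcases h2 with ⟨h, h'⟩ | ⟨h, h'⟩ | ⟨h, h'⟩ | ⟨h, h'⟩ | ⟨h, h'⟩
        · subst h; subst h'
          rw [if_pos (by simp)]
          exact ih _ _ h1' (Or.inr (Or.inr (Or.inl ⟨rfl, rfl⟩)))
            (shift α _ _ (fun h => absurd h.symm hne) (by rintro (h | h) <;> exact absurd h.symm hα) h3)
            (Or.inr (Or.inl rfl))
        · subst h; subst h'
          rw [if_neg (by simpa using hα), if_neg (by simpa using hne.symm), if_pos (by simp),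
            if_pos (by simpa using hβα)]
          exact ih _ _ h1' (Or.inr (Or.inr (Or.inr (Or.inl ⟨rfl, rfl⟩)))) (Or.inr (Or.inl rfl)) (Or.inr (Or.inr rfl))
        · subst h; subst h'
          rw [if_neg (by simpa using hβ), if_pos (by simp)]
          exact ih _ _ h1' (Or.inr (Or.inr (Or.inl ⟨rfl, rfl⟩)))
            (shift α _ _ (fun h => absurd h.symm hne) id h3) (Or.inr (Or.inl rfl))
        · subst h; subst h'
          rw [if_neg (by simpa using hα), if_neg (by simpa using hne.symm), if_neg (by simpa using hβ),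
            if_pos (by simp)]
          exact ih _ _ h1' (Or.inr (Or.inr (Or.inr (Or.inl ⟨rfl, rfl⟩)))) (Or.inr (Or.inl rfl)) (Or.inr (Or.inr rfl))
        · subst h; subst h'
          rw [if_neg (by simpa using hβ), if_pos (by simp)]
          exact ih _ _ h1' (Or.inr (Or.inr (Or.inr (Or.inr ⟨rfl, rfl⟩)))) (Or.inr (Or.inr rfl)) (Or.inr (Or.inl rfl))
    · rw [if_neg hb]
      have drop : ∀ γ : ℕ, ((∃ q ∈ p :: l, m.testBit q.val = true ∧ Nat.land (nb q) M = γ) ∨ x = γ ∨ y = γ) →
          ((∃ q ∈ l, m.testBit q.val = true ∧ Nat.land (nb q) M = γ) ∨ x = γ ∨ y = γ) := by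
        intro γ g3
        rcases g3 with ⟨q, hq, hq2, hq3⟩ | g3
        · rcases List.mem_cons.1 hq with rfl | hq
          · exact absurd hq2 hb
          · exact Or.inl ⟨q, hq, hq2, hq3⟩
        · exact Or.inr g3
      exact ih x y h1' h2 (drop α h3) (drop β h4)

/-- The eight exceptional sets. -/
def spec (m : ℕ) : Bool := [17, 34, 68, 136, 65518, 65501, 65467, 65399].contains m

theorem masks : ∀ a < 256, ∀ b < 256,
    (scan (256 * a + b) (65535 - (256 * a + b)) (List.finRange 16) 0 0 && !(spec (256 * a + b))) = false := by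
  decide +kernel

theorem nb_lt : ∀ u : Fin 16, nb u < 2 ^ 16 := by decide +kernel

theorem A_ne {p q : Fin 16} (h : A p q = true) : p ≠ q := fun hc => A_irrefl p (by rw [← hc] at h; exact h)

theorem side_pair (U A' B' : Set (Fin 16)) (p q : Fin 16) (hU : ∀ v, v ∈ U ↔ v = p ∨ v = q)
    (hpq : A p q = true) (h : Side gr U A' B') : False := by
  obtain ⟨hA, hB, hdis, ⟨a, ha⟩, ⟨b, hb⟩, -, hno⟩ := h
  apply hno
  have hab : a ≠ b := by
    rintro rfl
    exact Set.disjoint_left.1 hdis ha hb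
  have hadj : A a b = true := by
    rcases (hU a).1 (hA ha) with h1 | h1 <;> rcases (hU b).1 (hB hb) with h2 | h2
    · exact absurd (h1.trans h2.symm) hab
    · rw [h1, h2]; exact hpq
    · rw [h1, h2]; exact A_symm _ _ hpq
    · exact absurd (h1.trans h2.symm) hab
  let f : pathGraph (1 + 1) ↪g gr := ⟨⟨![a, b], by
      intro x y hxy
      fin_cases x <;> fin_cases y <;> simp_all⟩, by
      intro x y
      rw [pathGraph_adj]
      fin_cases x <;> fin_cases y <;> simp [gr, hadj, A_symm a b hadj]⟩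
  have hf0 : f 0 = a := rfl
  have hf1 : f 1 = b := rfl
  have hfU : ∀ i, f i ∈ U := by
    intro i
    fin_cases i
    · exact hA ha
    · exact hB hb
  refine ⟨1, f, ⟨hfU, ha, hb, ?_⟩, ?_⟩
  · intro i h0 h1
    fin_cases i
    · exact absurd rfl h0
    · exact absurd rfl h1
  · have hbij : Function.Bijective (fun i : Fin (1 + 1) => (⟨f i, hfU i⟩ : U)) := by
      constructor
      · intro x y hxy
        exact f.injective (congrArg Subtype.val hxy)
      · rintro ⟨v, hv⟩
        have hv' : v = a ∨ v = b := by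
          rcases (hU a).1 (hA ha) with h1 | h1 <;> rcases (hU b).1 (hB hb) with h2 | h2 <;>
            rcases (hU v).1 hv with h3 | h3
          · exact absurd (h1.trans h2.symm) hab
          · exact absurd (h1.trans h2.symm) hab
          · left; rw [h3, h1]
          · right; rw [h3, h2]
          · right; rw [h3, h2]
          · left; rw [h3, h1]
          · exact absurd (h1.trans h2.symm) hab
          · exact absurd (h1.trans h2.symm) hab
        rcases hv' with h | h
        · exact ⟨0, Subtype.ext (hf0.trans h.symm)⟩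
        · exact ⟨1, Subtype.ext (hf1.trans h.symm)⟩
    have hiso : pathGraph (1 + 1) ≃g gr.induce U := RelIso.mk (Equiv.ofBijective _ hbij) (by
      intro x y
      exact f.map_adj_iff)
    exact ⟨hiso.symm⟩

theorem spec_cases : ∀ m ∈ [17, 34, 68, 136, 65518, 65501, 65467, 65399], ∃ p q : Fin 16, A p q = true ∧
    ((∀ v : Fin 16, m.testBit v.val = true ↔ v = p ∨ v = q) ∨
     (∀ v : Fin 16, m.testBit v.val = false ↔ v = p ∨ v = q)) := by
  decide +kernel

theorem no_twojoin : ¬ HasTwoJoin gr := by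
  classical
  rintro ⟨V₁, V₂, A₁, B₁, A₂, B₂, hun, hdis, h1, h2, hcross⟩
  obtain ⟨m, hm⟩ : ∃ m, m = Nat.ofBits (fun v : Fin 16 => decide (v ∈ V₁)) := ⟨_, rfl⟩
  obtain ⟨α, hα⟩ : ∃ m, m = Nat.ofBits (fun v : Fin 16 => decide (v ∈ A₂)) := ⟨_, rfl⟩
  obtain ⟨β, hβ⟩ : ∃ m, m = Nat.ofBits (fun v : Fin 16 => decide (v ∈ B₂)) := ⟨_, rfl⟩
  have hmlt : m < 2 ^ 16 := by rw [hm]; exact Nat.ofBits_lt_two_pow _
  have hmb : ∀ v : Fin 16, m.testBit v.val = decide (v ∈ V₁) := by
    intro v
    rw [hm, Nat.testBit_ofBits_lt _ _ v.isLt]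
  have hαb : ∀ v : Fin 16, α.testBit v.val = decide (v ∈ A₂) := by
    intro v
    rw [hα, Nat.testBit_ofBits_lt _ _ v.isLt]
  have hβb : ∀ v : Fin 16, β.testBit v.val = decide (v ∈ B₂) := by
    intro v
    rw [hβ, Nat.testBit_ofBits_lt _ _ v.isLt]
  have hα16 : ∀ i, 16 ≤ i → α.testBit i = false := by
    intro i hi
    rw [hα, Nat.testBit_ofBits_ge _ _ hi]
  have hβ16 : ∀ i, 16 ≤ i → β.testBit i = false := by
    intro i hi
    rw [hβ, Nat.testBit_ofBits_ge _ _ hi]
  have hV2 : ∀ v : Fin 16, v ∈ V₂ ↔ ¬ v ∈ V₁ := by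
    intro v
    constructor
    · intro hv hv1
      exact Set.disjoint_left.1 hdis hv1 hv
    · intro hv
      have : v ∈ V₁ ∪ V₂ := by rw [hun]; exact Set.mem_univ v
      exact this.resolve_left hv
  have hMb : ∀ v : Fin 16, (65535 - m).testBit v.val = decide (v ∈ V₂) := by
    intro v
    have h := Nat.testBit_two_pow_sub_succ hmlt v.val
    have e : 2 ^ 16 - (m + 1) = 65535 - m := by omega
    rw [e] at h
    rw [h, hmb v]
    have := v.isLt
    by_cases hv : v ∈ V₁
    · simp [hv, hV2 v]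
    · simp [hv, hV2 v]
  obtain ⟨hA1, hB1, hd1, ⟨a1, ha1⟩, ⟨b1, hb1⟩, -⟩ := id h1
  obtain ⟨hA2, hB2, hd2, ⟨a2, ha2⟩, ⟨b2, hb2⟩, -⟩ := id h2
  have tr : ∀ (u : Fin 16) (γ : ℕ) (S : Set (Fin 16)), (∀ v : Fin 16, γ.testBit v.val = decide (v ∈ S)) →
      (∀ i, 16 ≤ i → γ.testBit i = false) → (∀ v : Fin 16, v ∈ S ↔ (A u v = true ∧ v ∈ V₂)) →
      Nat.land (nb u) (65535 - m) = γ := by
    intro u γ S g1 g2 g3
    apply Nat.eq_of_testBit_eq
    intro i
    have e : (Nat.land (nb u) (65535 - m)).testBit i = ((nb u).testBit i && (65535 - m).testBit i) :=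
      Nat.testBit_and _ _ _
    rw [e]
    by_cases hi : i < 16
    · have g4 := g1 ⟨i, hi⟩
      have g5 := hMb ⟨i, hi⟩
      have g6 := g3 ⟨i, hi⟩
      simp only at g4 g5
      rw [g4, g5]
      have g7 : (nb u).testBit i = A u ⟨i, hi⟩ := rfl
      rw [g7]
      by_cases hS : (⟨i, hi⟩ : Fin 16) ∈ S
      · have := g6.1 hS
        simp [hS, this.1, this.2]
      · have : ¬ (A u ⟨i, hi⟩ = true ∧ (⟨i, hi⟩ : Fin 16) ∈ V₂) := fun hc => hS (g6.2 hc)
        by_cases hA' : A u ⟨i, hi⟩ = true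
        · have hv2 : (⟨i, hi⟩ : Fin 16) ∉ V₂ := fun hc => this ⟨hA', hc⟩
          simp [hS, hv2]
        · simp [hS, hA']
    · have g4 := g2 i (by omega)
      rw [g4]
      have g5 : (nb u).testBit i = false := by
        apply Nat.testBit_lt_two_pow
        exact lt_of_lt_of_le (nb_lt u) (Nat.pow_le_pow_right (by norm_num) (by omega))
      rw [g5]
      rfl
  have tA : ∀ u ∈ A₁, Nat.land (nb u) (65535 - m) = α := by
    intro u hu
    apply tr u α A₂ hαb hα16
    intro v
    constructor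
    · intro hv
      exact ⟨(hcross u (hA1 hu) v (hA2 hv)).2 (Or.inl ⟨hu, hv⟩), hA2 hv⟩
    · rintro ⟨hv1, hv2⟩
      rcases (hcross u (hA1 hu) v hv2).1 hv1 with h | h
      · exact h.2
      · exact absurd h.1 (Set.disjoint_left.1 hd1 hu)
  have tB : ∀ u ∈ B₁, Nat.land (nb u) (65535 - m) = β := by
    intro u hu
    apply tr u β B₂ hβb hβ16
    intro v
    constructor
    · intro hv
      exact ⟨(hcross u (hB1 hu) v (hB2 hv)).2 (Or.inr ⟨hu, hv⟩), hB2 hv⟩
    · rintro ⟨hv1, hv2⟩
      rcases (hcross u (hB1 hu) v hv2).1 hv1 with h | h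
      · exact absurd hu (Set.disjoint_left.1 hd1 h.1)
      · exact h.2
  have tC : ∀ u ∈ V₁, u ∉ A₁ → u ∉ B₁ → Nat.land (nb u) (65535 - m) = 0 := by
    intro u hu hA' hB'
    apply tr u 0 ∅ (by intro v; simp) (by intro i _; simp)
    intro v
    constructor
    · intro hv
      exact absurd hv (Set.notMem_empty v)
    · rintro ⟨hv1, hv2⟩
      rcases (hcross u hu v hv2).1 hv1 with h | h
      · exact absurd h.1 hA'
      · exact absurd h.1 hB'
  have hα0 : α ≠ 0 := by
    intro hc
    have := hαb a2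
    rw [hc] at this
    simp [ha2] at this
  have hβ0 : β ≠ 0 := by
    intro hc
    have := hβb b2
    rw [hc] at this
    simp [hb2] at this
  have hland : Nat.land α β = 0 := by
    apply Nat.eq_of_testBit_eq
    intro i
    have e : (Nat.land α β).testBit i = (α.testBit i && β.testBit i) := Nat.testBit_and _ _ _
    rw [e]
    by_cases hi : i < 16
    · have g1 := hαb ⟨i, hi⟩
      have g2 := hβb ⟨i, hi⟩
      simp only at g1 g2
      rw [g1, g2]
      by_cases hS : (⟨i, hi⟩ : Fin 16) ∈ A₂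
      · have : (⟨i, hi⟩ : Fin 16) ∉ B₂ := Set.disjoint_left.1 hd2 hS
        simp [this]
      · simp [hS]
    · rw [hα16 i (by omega)]
      simp
  have hland' : Nat.land β α = 0 := by
    have : Nat.land β α = Nat.land α β := Nat.land_comm β α
    rw [this, hland]
  have hne : α ≠ β := by
    intro hc
    rw [hc] at hland
    have : Nat.land β β = β := by
      apply Nat.eq_of_testBit_eq
      intro i
      have e : (Nat.land β β).testBit i = (β.testBit i && β.testBit i) := Nat.testBit_and _ _ _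
      rw [e, Bool.and_self]
    rw [this] at hland
    exact hβ0 hland
  have hscan : scan m (65535 - m) (List.finRange 16) 0 0 = true := by
    apply scan_true m (65535 - m) α β hα0 hβ0 hland hland' hne
    · intro p _ hp
      rw [hmb p] at hp
      have hp' : p ∈ V₁ := by simpa using hp
      by_cases hpA : p ∈ A₁
      · exact Or.inr (Or.inl (tA p hpA))
      · by_cases hpB : p ∈ B₁
        · exact Or.inr (Or.inr (tB p hpB))
        · exact Or.inl (tC p hp' hpA hpB)
    · exact Or.inl ⟨rfl, rfl⟩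
    · exact Or.inl ⟨a1, List.mem_finRange a1, by rw [hmb]; simpa using hA1 ha1, tA a1 ha1⟩
    · exact Or.inl ⟨b1, List.mem_finRange b1, by rw [hmb]; simpa using hB1 hb1, tB b1 hb1⟩
  have hmask := masks (m / 256) (by omega) (m % 256) (Nat.mod_lt _ (by norm_num))
  rw [Nat.div_add_mod, hscan] at hmask
  have hspec : spec m = true := by simpa using hmask
  have hmem : m ∈ [17, 34, 68, 136, 65518, 65501, 65467, 65399] := by
    unfold spec at hspec
    exact List.contains_iff_mem.1 hspec
  obtain ⟨p, q, hpq, h3 | h3⟩ := spec_cases m hmem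
  · apply side_pair V₁ A₁ B₁ p q _ hpq h1
    intro v
    rw [← h3 v, hmb v]
    simp
  · apply side_pair V₂ A₂ B₂ p q _ hpq h2
    intro v
    rw [← h3 v, hmb v, hV2 v]
    simp

/-- There is a graph which is Berge and even-pair-free, is not the line graph of a bipartite graph, whose
complement is not the line graph of a bipartite graph, and which has no 2-join; moreover the graph can be
chosen isomorphic to its complement. -/
theorem result : ∃ G : SimpleGraph (Fin 16), IsBerge G ∧ EvenPairFree G ∧ ¬ IsLineOfBipartite G ∧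
    ¬ IsLineOfBipartite Gᶜ ∧ ¬ HasTwoJoin G ∧ Nonempty (G ≃g Gᶜ) :=
  ⟨gr, berge, epf, not_line, not_line_compl, no_twojoin, ⟨iso.symm⟩⟩

end Pool.Agent.Results.MP_a9a483_co.DoubleSplit
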